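import Pool.Agent.H.MP_22b8ff_nt.A

set_option autoImplicit false

namespace Pool.Agent.H.MP_22b8ff_nt

open Finset

noncomputable def vdc (p n : ℕ) : ℝ := ∑' i : ℕ, ((n / p ^ i % p : ℕ) : ℝ) / (p : ℝ) ^ (i + 1)

lemma vdc_summable {p : ℕ} (hp : 1 < p) (n : ℕ) :
    Summable fun i : ℕ => ((n / p ^ i % p : ℕ) : ℝ) / (p : ℝ) ^ (i + 1) := by
  refine summable_of_ne_finset_zero (s := range n) fun i hi => ?_
  rw [mem_range, not_lt] at hi
  rw [Nat.div_eq_of_lt (lt_of_le_of_lt hi (Nat.lt_pow_self hp))]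
  simp

lemma vdc_rec {p : ℕ} (hp : 1 < p) (n : ℕ) : vdc p n = ((n % p : ℕ) + vdc p (n / p)) / p := by
  rw [vdc, (vdc_summable hp n).tsum_eq_zero_add, add_div, vdc, ← tsum_div_const]
  congr 1
  · simp
  · refine tsum_congr fun i => ?_
    rw [Nat.div_div_eq_div_mul, ← pow_succ', div_div, ← pow_succ]

lemma vdc_bd {p : ℕ} (hp : 1 < p) (n : ℕ) : 0 ≤ vdc p n ∧ vdc p n < 1 := by
  refine ⟨tsum_nonneg fun i => by positivity, ?_⟩
  induction n using Nat.strong_induction_on with
  | _ n ih =>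
    rcases Nat.eq_zero_or_pos n with rfl | hn
    · simp [vdc]
    · have h1 := ih (n / p) (Nat.div_lt_self hn hp)
      have h2 : ((n % p : ℕ) : ℝ) + 1 ≤ p := by exact_mod_cast Nat.mod_lt n (by omega)
      rw [vdc_rec hp, div_lt_one (by positivity)]
      linarith

lemma sum_range_mul (g : ℕ → ℝ) (p M : ℕ) :
    ∑ n ∈ range (p * M), g n = ∑ r ∈ range p, ∑ m ∈ range M, g (r + p * m) := by
  induction M with
  | zero => simp
  | succ M ih =>
    rw [mul_add, mul_one, sum_range_add, ih, ← sum_add_distrib]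
    refine sum_congr rfl fun r _ => ?_
    rw [sum_range_succ, add_comm r (p * M)]

lemma sum_clamp (t : ℝ) (ht : 0 ≤ t) (p : ℕ) :
    ∑ r ∈ range p, max 0 (min 1 (t - r)) = min t p := by
  induction p with
  | zero => simp [ht]
  | succ p ih =>
    rw [sum_range_succ, ih]
    push_cast
    simp only [min_def, max_def]
    split_ifs <;> linarith

lemma abs_sum_sub_le (g : ℕ → ℝ) (hg : ∀ n, 0 ≤ g n ∧ g n ≤ 1) (t : ℝ) (h0 : 0 ≤ t) (h1 : t ≤ 1)
    (s : ℕ) : |∑ n ∈ range s, g n - t * s| ≤ s := by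
  induction s with
  | zero => simp
  | succ s ih =>
    rw [sum_range_succ]
    push_cast
    rw [abs_le] at ih ⊢
    constructor <;> linarith [ih.1, ih.2, (hg s).1, (hg s).2]

lemma hyb {p : ℕ} (hp : 1 < p) {a E : ℝ} (ha0 : 0 ≤ a) (ha1 : a ≤ 1) (hE : 0 ≤ E) (B J : ℕ) :
    ∀ (f : ℕ → ℝ), (∀ n, 0 ≤ f n ∧ f n ≤ 1) →
      (∀ j r M, M ≤ B → |∑ m ∈ range M, f (r + p ^ j * m) - a * M| ≤ E) →
      ∀ N, N ≤ 2 ^ J → N ≤ B → ∀ b : ℝ, 0 ≤ b → b ≤ 1 →
      |∑ n ∈ range N, f n * (if vdc p n < b then 1 else 0) - a * b * N| ≤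
        (J + 1) * (p * (E + 1)) := by
  have hp' : (1 : ℝ) ≤ p := by exact_mod_cast hp.le
  have hg : ∀ (f : ℕ → ℝ), (∀ n, 0 ≤ f n ∧ f n ≤ 1) → ∀ b : ℝ, ∀ n,
      0 ≤ f n * (if vdc p n < b then 1 else 0) ∧ f n * (if vdc p n < b then 1 else 0) ≤ 1 := by
    intro f hf b n
    split_ifs
    · simpa using hf n
    · simp
  induction J with
  | zero =>
    intro f hf _ N hN _ b hb0 hb1
    have h1 := abs_sum_sub_le _ (hg f hf b) (a * b) (by positivity) (by nlinarith) N
    have h2 : (N : ℝ) ≤ 1 := by exact_mod_cast hN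
    refine h1.trans (h2.trans ?_)
    simp only [Nat.cast_zero, zero_add, one_mul]
    nlinarith
  | succ J ih =>
    intro f hf hK N hN hB b hb0 hb1
    have hd := Nat.div_add_mod N p
    have hm := Nat.mod_lt N (show 0 < p by omega)
    set M := N / p
    set s := N % p
    have hM : 2 * M ≤ N := by nlinarith
    rw [← hd, sum_range_add, sum_range_mul]
    have h1 := abs_sum_sub_le (fun n => f (p * M + n) * (if vdc p (p * M + n) < b then 1 else 0))
      (fun n => hg f hf b _) (a * b) (by positivity) (by nlinarith) s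
    have h2 : (s : ℝ) ≤ p := by exact_mod_cast hm.le
    have h3 : ∀ r ∈ range p, |∑ m ∈ range M, f (r + p * m) * (if vdc p (r + p * m) < b then 1 else 0)
        - a * max 0 (min 1 (p * b - r)) * M| ≤
        E + if r = ⌊p * b⌋₊ then (J + 1) * (p * (E + 1)) else 0 := by
      intro r hr
      rw [mem_range] at hr
      have h4 : ∀ m, vdc p (r + p * m) < b ↔ vdc p m < p * b - r := by
        intro m
        rw [vdc_rec hp, Nat.add_mul_mod_self_left, Nat.mod_eq_of_lt hr,
          Nat.add_mul_div_left _ _ (show 0 < p by omega), Nat.div_eq_of_lt hr, zero_add,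
          div_lt_iff₀ (by linarith)]
        constructor <;> intro h <;> linarith
      simp only [h4]
      have h5 : 0 ≤ (if r = ⌊p * b⌋₊ then ((J : ℝ) + 1) * (p * (E + 1)) else 0) := by
        split_ifs <;> positivity
      by_cases c1 : 1 ≤ p * b - r
      · have h6 : ∀ m, vdc p m < p * b - r := fun m => lt_of_lt_of_le (vdc_bd hp m).2 c1
        simp only [h6, if_true, mul_one, min_eq_left c1, max_eq_right zero_le_one]
        have := hK 1 r M (by omega)
        rw [pow_one] at this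
        linarith
      by_cases c2 : p * b - r ≤ 0
      · have h6 : ∀ m, ¬ vdc p m < p * b - r := fun m => not_lt.mpr (c2.trans (vdc_bd hp m).1)
        simp only [h6, if_false, mul_zero, sum_const_zero,
          max_eq_left (min_le_of_right_le c2), zero_mul, sub_zero, abs_zero]
        linarith
      rw [not_le] at c1 c2
      have h6 : r = ⌊p * b⌋₊ := by
        symm
        rw [Nat.floor_eq_iff (by positivity)]
        constructor <;> linarith
      rw [if_pos h6, min_eq_right c1.le, max_eq_right c2.le]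
      have := ih (fun m => f (r + p * m)) (fun n => hf _) (fun j r' M' hM' => by
        have := hK (j + 1) (r + p * r') M' hM'
        simpa only [mul_add, ← mul_assoc, ← pow_succ', add_assoc] using this) M
        (by rw [pow_succ] at hN; omega) (by omega) (p * b - r) c2.le c1.le
      linarith
    have h7 := (Finset.abs_sum_le_sum_abs _ _).trans (Finset.sum_le_sum h3)
    rw [sum_sub_distrib, ← sum_mul, ← mul_sum, sum_clamp _ (by positivity),
      min_eq_left (by nlinarith), sum_add_distrib, sum_ite_eq'] at h7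
    simp only [sum_const, card_range, nsmul_eq_mul] at h7
    have h8 : (if ⌊p * b⌋₊ ∈ range p then ((J : ℝ) + 1) * (p * (E + 1)) else 0) ≤
        ((J : ℝ) + 1) * (p * (E + 1)) := by
      split_ifs
      · exact le_rfl
      · positivity
    rw [abs_le] at h1 h7 ⊢
    push_cast
    constructor <;> nlinarith [h1.1, h1.2, h7.1, h7.2]

lemma clog_le {N : ℕ} (hN : 2 ≤ N) : (Nat.clog 2 N : ℝ) + 1 ≤ 6 * Real.log N := by
  have h1 := Nat.pow_pred_clog_lt_self (show 1 < 2 by norm_num) (show 1 < N by omega)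
  have h2 : 0 < Nat.clog 2 N := Nat.clog_pos (by norm_num) (by omega)
  obtain ⟨L, hL⟩ : ∃ L, Nat.clog 2 N = L + 1 := ⟨Nat.clog 2 N - 1, by omega⟩
  rw [hL] at h1 ⊢
  have h3 : (2 : ℝ) ^ L ≤ N := by exact_mod_cast h1.le
  have h4 := Real.log_le_log (by positivity) h3
  rw [Real.log_pow] at h4
  have h5 : Real.log 2 ≤ Real.log N := Real.log_le_log (by norm_num) (by exact_mod_cast hN)
  have h6 := Real.log_two_gt_d9
  have h7 : (0 : ℝ) ≤ L := Nat.cast_nonneg _
  push_cast
  nlinarith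

lemma main {p : ℕ} (hp : 1 < p) {α c : ℝ} (hc : 0 < c)
    (h : ∀ j q : ℕ, 1 ≤ q → c ≤ q * |q * (p ^ j * α) - round (q * (p ^ j * α))|) :
    ∃ C : ℝ, ∀ N : ℕ, 2 ≤ N → ∀ a b : ℝ, 0 ≤ a → a ≤ 1 → 0 ≤ b → b ≤ 1 →
      |∑ n ∈ range N, (if Int.fract (n * α) < a then (1 : ℝ) else 0) *
        (if vdc p n < b then 1 else 0) - a * b * N| ≤ C * Real.log N ^ 2 := by
  have hc1 : c ≤ 1 := by
    have := h 0 1 le_rfl
    have h2 := abs_sub_round (((1 : ℕ) : ℝ) * (p ^ 0 * α))
    simp only [Nat.cast_one, one_mul] at this h2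
    linarith
  obtain ⟨s, hs⟩ := exists_pow_lt_of_lt_one (show (0 : ℝ) < 1 / 2 by norm_num)
    (show 1 - c < 1 by linarith)
  refine ⟨36 * (p * (3 * s + 1)), fun N hN a b ha0 ha1 hb0 hb1 => ?_⟩
  set L := Nat.clog 2 N
  have hL : N ≤ 2 ^ L := Nat.le_pow_clog (by norm_num) N
  have h1 := hyb hp ha0 ha1 (E := 3 * (s * (L + 1) : ℕ)) (by positivity) (2 ^ L) L
    (fun n => if Int.fract (n * α) < a then (1 : ℝ) else 0)
    (fun n => by split_ifs <;> simp) (fun j r M hM => by
      have h2 := kron hc (h j) (r * α) a ha0 ha1 (s * (L + 1)) M (by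
        have h3 : (M : ℝ) ≤ 2 ^ L := by exact_mod_cast hM
        have h4 : ((1 - c) ^ s) ^ (L + 1) ≤ (1 / 2) ^ (L + 1) :=
          pow_le_pow_left₀ (pow_nonneg (by linarith) _) hs.le _
        rw [pow_mul]
        calc _ ≤ (2 : ℝ) ^ L * (1 / 2) ^ (L + 1) :=
              mul_le_mul h3 h4 (pow_nonneg (pow_nonneg (by linarith) _) _) (by positivity)
          _ = 1 / 2 := by rw [pow_succ, ← mul_assoc, ← mul_pow]; norm_num
          _ < 1 := by norm_num)
      have h5 : ∀ m : ℕ, ((r + p ^ j * m : ℕ) : ℝ) * α = m * (p ^ j * α) + r * α := by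
        intro m; push_cast; ring
      simp only [h5]
      exact h2) N hL hL b hb0 hb1
  refine h1.trans ?_
  have h6 := clog_le hN
  have h7 : (0 : ℝ) ≤ L := Nat.cast_nonneg _
  have h8 : ((L : ℝ) + 1) ^ 2 ≤ (6 * Real.log N) ^ 2 := pow_le_pow_left₀ (by positivity) h6 2
  have h9 : (0 : ℝ) ≤ s := Nat.cast_nonneg _
  have h10 : (0 : ℝ) ≤ p := Nat.cast_nonneg _
  push_cast
  calc _ ≤ (p * (3 * s + 1)) * ((L : ℝ) + 1) ^ 2 := by
        nlinarith [mul_nonneg h10 (mul_nonneg h7 (add_nonneg h7 zero_le_one))]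
    _ ≤ (p * (3 * s + 1)) * (6 * Real.log N) ^ 2 := mul_le_mul_of_nonneg_left h8 (by positivity)
    _ = _ := by ring

end Pool.Agent.H.MP_22b8ff_nt
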