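import Mathlib

set_option autoImplicit false

namespace Pool.Agent.H.MP_22b8ff_nt

open Finset

lemma sum_emod (q : ℕ) (hq : 0 < q) (P k : ℤ) (h : IsCoprime P (q : ℤ)) :
    ∑ i ∈ range q, ((i : ℤ) * P + k) % q = ∑ i ∈ range q, (i : ℤ) := by
  refine Finset.sum_bij (fun i _ => (((i : ℤ) * P + k) % q).toNat) ?_ ?_ ?_ ?_
  · intro i _
    have := Int.emod_lt_of_pos ((i : ℤ) * P + k) (show (0 : ℤ) < q by omega)
    rw [mem_range]; omega
  · intro i hi j hj hij
    have h1 := Int.emod_nonneg ((i : ℤ) * P + k) (show (q : ℤ) ≠ 0 by omega)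
    have h2 := Int.emod_nonneg ((j : ℤ) * P + k) (show (q : ℤ) ≠ 0 by omega)
    have h3 : ((i : ℤ) * P + k) % q = ((j : ℤ) * P + k) % q := by omega
    have h4 : (q : ℤ) ∣ ((j : ℤ) - i) * P := by
      have := Int.ModEq.dvd h3
      convert this using 1; ring
    have h5 := h.symm.dvd_of_dvd_mul_right h4
    rw [mem_range] at hi hj
    have := Int.eq_zero_of_dvd_of_natAbs_lt_natAbs h5 (by omega)
    omega
  · intro b hb
    have hinj : ∀ i ∈ range q, ∀ j ∈ range q,
        (((i : ℤ) * P + k) % q).toNat = (((j : ℤ) * P + k) % q).toNat → i = j := by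
      intro i hi j hj hij
      have h1 := Int.emod_nonneg ((i : ℤ) * P + k) (show (q : ℤ) ≠ 0 by omega)
      have h2 := Int.emod_nonneg ((j : ℤ) * P + k) (show (q : ℤ) ≠ 0 by omega)
      have h3 : ((i : ℤ) * P + k) % q = ((j : ℤ) * P + k) % q := by omega
      have h4 : (q : ℤ) ∣ ((j : ℤ) - i) * P := by
        have := Int.ModEq.dvd h3
        convert this using 1; ring
      have h5 := h.symm.dvd_of_dvd_mul_right h4
      rw [mem_range] at hi hj
      have := Int.eq_zero_of_dvd_of_natAbs_lt_natAbs h5 (by omega)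
      omega
    obtain ⟨a, ha, hab⟩ := Finset.surj_on_of_inj_on_of_card_le (s := range q) (t := range q)
      (fun i _ => (((i : ℤ) * P + k) % q).toNat)
      (fun i _ => by
        have := Int.emod_lt_of_pos ((i : ℤ) * P + k) (show (0 : ℤ) < q by omega)
        rw [mem_range]; omega)
      (fun i j hi hj => hinj i hi j hj) le_rfl b hb
    exact ⟨a, ha, hab.symm⟩
  · intro i _
    have h1 := Int.emod_nonneg ((i : ℤ) * P + k) (show (q : ℤ) ≠ 0 by omega)
    omega

lemma sum_floor (q : ℕ) (hq : 0 < q) (P : ℤ) (h : IsCoprime P (q : ℤ)) :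
    ∃ k₀ : ℝ, ∀ y : ℝ, ∑ i ∈ range q, (⌊(i : ℝ) * (P / q) + y⌋ : ℝ) = k₀ + ⌊q * y⌋ := by
  have hq' : (0 : ℝ) < q := by exact_mod_cast hq
  refine ⟨(P - 1) * (∑ i ∈ range q, (i : ℝ)) / q, fun y => ?_⟩
  have h1 : ∀ i : ℕ, ⌊(i : ℝ) * (P / q) + y⌋ = ((i : ℤ) * P + ⌊q * y⌋) / q := by
    intro i
    rw [← Int.floor_intCast_add, ← Int.floor_div_natCast]
    congr 1; push_cast; field_simp
  have h2 : ∀ i : ℕ, (q : ℝ) * (⌊(i : ℝ) * (P / q) + y⌋ : ℝ) =
      i * P + ⌊q * y⌋ - ((((i : ℤ) * P + ⌊q * y⌋) % q : ℤ) : ℝ) := by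
    intro i
    rw [h1]
    have := Int.mul_ediv_add_emod ((i : ℤ) * P + ⌊q * y⌋) q
    have h3 : (q : ℤ) * (((i : ℤ) * P + ⌊q * y⌋) / q) =
        i * P + ⌊q * y⌋ - ((i : ℤ) * P + ⌊q * y⌋) % q := by omega
    exact_mod_cast h3
  have h3 := sum_emod q hq P ⌊q * y⌋ h
  have h4 : ∑ i ∈ range q, ((((i : ℤ) * P + ⌊q * y⌋) % q : ℤ) : ℝ) = ∑ i ∈ range q, (i : ℝ) := by
    have := congrArg (Int.cast : ℤ → ℝ) h3
    simpa only [Int.cast_sum, Int.cast_natCast] using this
  apply mul_left_cancel₀ hq'.ne'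
  rw [Finset.mul_sum]
  simp only [h2]
  rw [sum_sub_distrib, sum_add_distrib, h4, ← sum_mul]
  simp only [sum_const, card_range, nsmul_eq_mul]
  field_simp
  ring

lemma ind_eq (z a : ℝ) (h0 : 0 ≤ a) (h1 : a ≤ 1) :
    (if Int.fract z < a then (1 : ℝ) else 0) = ⌊z⌋ - ⌊z - a⌋ := by
  have h2 := Int.floor_add_fract z
  have h3 := Int.fract_nonneg z
  have h4 := Int.fract_lt_one z
  split_ifs with h
  · have : ⌊z - a⌋ = ⌊z⌋ - 1 := by
      rw [Int.floor_eq_iff]; push_cast; constructor <;> linarith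
    rw [this]; push_cast; ring
  · have : ⌊z - a⌋ = ⌊z⌋ := by
      rw [Int.floor_eq_iff]; constructor <;> linarith
    rw [this]; ring

lemma block (β : ℝ) (q : ℕ) (hq : 0 < q) (P : ℤ) (h : IsCoprime P (q : ℤ))
    (hβ : |β - P / q| ≤ 1 / (q * q)) (y a : ℝ) (h0 : 0 ≤ a) (h1 : a ≤ 1) :
    |∑ i ∈ range q, (if Int.fract (i * β + y) < a then (1 : ℝ) else 0) - a * q| ≤ 3 := by
  have hq' : (0 : ℝ) < q := by exact_mod_cast hq
  obtain ⟨k₀, hk⟩ := sum_floor q hq P h
  have hG : ∀ y : ℝ, k₀ + q * y - 2 ≤ ∑ i ∈ range q, (⌊(i : ℝ) * β + y⌋ : ℝ) ∧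
      ∑ i ∈ range q, (⌊(i : ℝ) * β + y⌋ : ℝ) ≤ k₀ + q * y + 1 := by
    intro y
    have hb : ∀ i ∈ range q, |(i : ℝ) * β - i * (P / q)| ≤ 1 / q := by
      intro i hi
      have hi' : (i : ℝ) ≤ q := by exact_mod_cast (mem_range.mp hi).le
      rw [← mul_sub, abs_mul, abs_of_nonneg (Nat.cast_nonneg i)]
      calc _ ≤ (q : ℝ) * (1 / (q * q)) := mul_le_mul hi' hβ (abs_nonneg _) hq'.le
        _ = 1 / q := by field_simp
    constructor
    · have h2 := hk (y - 1 / q)
      have h3 := Int.lt_floor_add_one (q * (y - 1 / q))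
      have h4 : (q : ℝ) * (y - 1 / q) = q * y - 1 := by field_simp
      refine le_trans (by rw [h4] at h2 h3; linarith) (Finset.sum_le_sum (f := fun i : ℕ =>
        (⌊(i : ℝ) * (P / q) + (y - 1 / q)⌋ : ℝ)) fun i hi => ?_)
      have := (abs_le.mp (hb i hi)).1
      exact Int.cast_le.mpr (Int.floor_mono (by linarith))
    · have h2 := hk (y + 1 / q)
      have h3 := Int.floor_le (q * (y + 1 / q))
      have h4 : (q : ℝ) * (y + 1 / q) = q * y + 1 := by field_simp
      refine le_trans (Finset.sum_le_sum (g := fun i : ℕ =>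
        (⌊(i : ℝ) * (P / q) + (y + 1 / q)⌋ : ℝ)) fun i hi => ?_) (by rw [h4] at h2 h3; linarith)
      have := (abs_le.mp (hb i hi)).2
      exact Int.cast_le.mpr (Int.floor_mono (by linarith))
  simp only [ind_eq _ a h0 h1, sum_sub_distrib, add_sub_assoc]
  have h2 := hG y
  have h3 := hG (y - a)
  rw [abs_le]; constructor <;> nlinarith [h2.1, h2.2, h3.1, h3.2]

lemma kron {β c : ℝ} (hc : 0 < c) (hβ : ∀ q : ℕ, 1 ≤ q → c ≤ q * |q * β - round (q * β)|)
    (x a : ℝ) (h0 : 0 ≤ a) (h1 : a ≤ 1) (J : ℕ) : ∀ M : ℕ, M * (1 - c) ^ J < 1 →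
    |∑ i ∈ range M, (if Int.fract (i * β + x) < a then (1 : ℝ) else 0) - a * M| ≤ 3 * J := by
  have hc1 : c ≤ 1 := by
    have := hβ 1 le_rfl
    have h2 := abs_sub_round (((1 : ℕ) : ℝ) * β)
    simp only [Nat.cast_one, one_mul] at this h2
    linarith
  induction J with
  | zero =>
    intro M hM
    have : M = 0 := by
      rw [pow_zero, mul_one] at hM
      exact Nat.lt_one_iff.mp (by exact_mod_cast hM)
    simp [this]
  | succ J ih =>
    intro M hM
    rcases Nat.eq_zero_or_pos M with rfl | hM0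
    · simp; positivity
    obtain ⟨r, hr1, hr2⟩ := Real.exists_rat_abs_sub_le_and_den_le β hM0
    have hq : (0 : ℝ) < r.den := by exact_mod_cast r.pos
    have hr2' : (r.den : ℝ) ≤ M := by exact_mod_cast hr2
    rw [Rat.cast_def] at hr1
    have h2 : c * M ≤ r.den := by
      have h3 := hβ r.den r.pos
      have h4 := round_le ((r.den : ℝ) * β) r.num
      have h5 : |(r.den : ℝ) * β - r.num| ≤ 1 / (M + 1) := by
        have : (r.den : ℝ) * β - r.num = r.den * (β - r.num / r.den) := by field_simp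
        rw [this, abs_mul, abs_of_pos hq]
        calc _ ≤ (r.den : ℝ) * (1 / ((M + 1) * r.den)) := mul_le_mul_of_nonneg_left hr1 hq.le
          _ = _ := by field_simp
      have h6 : c ≤ r.den * (1 / (M + 1)) :=
        h3.trans (mul_le_mul_of_nonneg_left (h4.trans h5) hq.le)
      rw [mul_one_div, le_div_iff₀ (by positivity)] at h6
      nlinarith
    obtain ⟨M', rfl⟩ := Nat.exists_eq_add_of_le' hr2
    have h3 := ih M' (by
      push_cast at h2 hM
      refine lt_of_le_of_lt ?_ hM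
      rw [pow_succ', ← mul_assoc]
      exact mul_le_mul_of_nonneg_right (by nlinarith) (pow_nonneg (by linarith) _))
    have h4 := block β r.den r.pos r.num (Int.isCoprime_iff_gcd_eq_one.mpr r.reduced)
      (hr1.trans (one_div_le_one_div_of_le (by positivity) (by nlinarith))) (M' * β + x) a h0 h1
    rw [sum_range_add]
    have h5 : ∀ i : ℕ, ((M' + i : ℕ) : ℝ) * β + x = i * β + (M' * β + x) := by
      intro i; push_cast; ring
    simp only [h5]
    rw [abs_le] at h3 h4 ⊢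
    push_cast
    constructor <;> linarith [h3.1, h3.2, h4.1, h4.2]

end Pool.Agent.H.MP_22b8ff_nt
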